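import Pool.Agent.H78.Flat

open Pool.Agent.H78.Flat

theorem Pool.Agent.Results.MP_6c6cee_co.Counter.result :
    14 ∈ S 7 3 ∧ 15 ∉ S 7 3 ∧ T 7 3 = 29 :=
  main.1
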